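import Pool.Agent.Lib.MP_0a5adf_nt.EXP.Base

/-!
Module MAIN: sum over the classes.
-/

set_option autoImplicit false

namespace Pool.Agent.Lib.MP_0a5adf_nt.EXP.H59

open Finset Pool.Agent.Lib.MP_0a5adf_nt.EXP

theorem pre_le {k : ℕ} (w : Fin k → Bool) (n : ℕ) : pre w n ≤ n := by
  unfold pre
  have h1 : (∑ t : Fin k, if (t : ℕ) < n then (w t).toNat else 0) ≤
      ∑ t : Fin k, if (t : ℕ) < n then 1 else 0 := by
    refine sum_le_sum fun t _ => ?_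
    split_ifs
    · exact Bool.toNat_le _
    · exact le_rfl
  refine h1.trans ?_
  rw [← card_filter]
  have h2 : ((univ : Finset (Fin k)).filter (fun t : Fin k => (t : ℕ) < n)).card ≤ (range n).card := by
    refine card_le_card_of_injOn (fun t : Fin k => (t : ℕ)) ?_ ?_
    · intro t ht
      simpa using ht
    · intro t _ t' _ h
      exact Fin.ext h
  simpa using h2

theorem suf_le {k : ℕ} (w : Fin k → Bool) (n : ℕ) : suf w n ≤ k - n := by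
  unfold suf
  have h1 : (∑ t : Fin k, if (t : ℕ) < n then 0 else (w t).toNat) ≤
      ∑ t : Fin k, if ¬ (t : ℕ) < n then 1 else 0 := by
    refine sum_le_sum fun t _ => ?_
    split_ifs
    · exact le_rfl
    · exact Bool.toNat_le _
  refine h1.trans ?_
  rw [← card_filter]
  have h2 : ((univ : Finset (Fin k)).filter (fun t : Fin k => ¬ (t : ℕ) < n)).card ≤ (Ico n k).card := by
    refine card_le_card_of_injOn (fun t : Fin k => (t : ℕ)) ?_ ?_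
    · intro t ht
      have := t.2
      simp only [not_lt, coe_filter, mem_univ, true_and, Set.mem_setOf_eq] at ht
      simp [ht]
    · intro t _ t' _ h
      exact Fin.ext h
  simpa using h2

/-- class indices -/
abbrev Idx (m : ℕ) : Type :=
  (Fin 3 → Fin (m + 1)) × (Fin 3 → Fin (m + 1)) × (Fin 3 → Fin (m + 1)) × Fin (m + 1)

/-- words -/
abbrev Q4 (m : ℕ) : Type := (Fin m → Bool) × (Fin m → Bool) × (Fin m → Bool) × (Fin m → Bool)

/-- validity -/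
def Valid (m c : ℕ) (p : Idx m) : Prop :=
  (∀ i, (p.1 i : ℕ) ≤ m ∧ (p.2.1 i : ℕ) ≤ p.1 i ∧ (p.2.2.1 i : ℕ) ≤ m - p.1 i ∧
    2 ^ m ≤ 2 ^ (p.1 i : ℕ) * 3 ^ (p.2.2.1 i : ℕ)) ∧
  2 ^ m ≤ 2 ^ c * 3 ^ ((p.2.1 0 : ℕ) + p.2.2.1 0) ∧
  2 ^ (2 * m) ≤ 2 ^ c * 3 ^ ((p.2.1 0 : ℕ) + p.2.2.1 0 + (p.2.1 1 + p.2.2.1 1)) ∧
  2 ^ (3 * m) ≤ 2 ^ c * 3 ^ ((p.2.1 0 : ℕ) + p.2.2.1 0 + (p.2.1 1 + p.2.2.1 1) +
    (p.2.1 2 + p.2.2.1 2)) ∧
  2 ^ (4 * m) ≤ 2 ^ c * 3 ^ ((p.2.1 0 : ℕ) + p.2.2.1 0 + (p.2.1 1 + p.2.2.1 1) +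
    (p.2.1 2 + p.2.2.1 2) + p.2.2.2)

/-- the set of words of a class -/
def InClass (m : ℕ) (n j' j'' : Fin 3 → ℕ) (j3 J0 J1 J2 : ℕ) (g : ℤ) (q : Q4 m) : Prop :=
  (pre q.1 (n 0) = j' 0 ∧ suf q.1 (n 0) = j'' 0 ∧ rr q.1 ≤ m * (2 ^ n 0 * 3 ^ j'' 0)) ∧
  (pre q.2.1 (n 1) = j' 1 ∧ suf q.2.1 (n 1) = j'' 1 ∧
    rr q.2.1 ≤ m * (2 ^ n 1 * 3 ^ j'' 1)) ∧
  (pre q.2.2.1 (n 2) = j' 2 ∧ suf q.2.2.1 (n 2) = j'' 2 ∧
    rr q.2.2.1 ≤ m * (2 ^ n 2 * 3 ^ j'' 2)) ∧ ones q.2.2.2 = j3 ∧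
  (2 : ℤ) ^ m ∣ 3 ^ (j3 + (J2 - J0)) * zeta J0 (3 * m) (rr q.1)
    + 3 ^ (j3 + (J2 - J1)) * zeta J1 (2 * m) (rr q.2.1)
    + 3 ^ j3 * zeta J2 m (rr q.2.2.1) + rr q.2.2.2 - g

theorem log_bound : (354 : ℝ) ≤ 2 ^ (8.468 : ℝ) := by
  have h1 : (354 : ℝ) ^ (62 : ℕ) ≤ ((2 : ℝ) ^ (175 : ℕ)) ^ (3 : ℕ) := by norm_num
  have h2 : ((2 : ℝ) ^ (175 : ℕ)) ^ (3 : ℕ) ≤ ((2 : ℝ) ^ (8.468 : ℝ)) ^ (62 : ℕ) := by
    rw [← pow_mul, ← Real.rpow_natCast, ← Real.rpow_natCast ((2 : ℝ) ^ (8.468 : ℝ)),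
      ← Real.rpow_mul (by norm_num)]
    exact Real.rpow_le_rpow_of_exponent_le (by norm_num) (by norm_num)
  exact le_of_pow_le_pow_left₀ (by norm_num) (Real.rpow_nonneg (by norm_num) _) (h1.trans h2)

/-- numerical form of the class bound -/
theorem class_num {m c : ℕ} (hm : 1 ≤ m) {N : ℝ} (hN0 : 0 ≤ N)
    (hN : N ^ 12 ≤ (16 * m * 2 ^ ((0.0001 : ℝ) * m)) ^ 9 * 2 ^ (4 * c) * 354 ^ (4 * m)) :
    N ≤ 16 * m * 2 ^ c * 2 ^ ((2.8228 : ℝ) * m) := by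
  have hm' : (1 : ℝ) ≤ m := by exact_mod_cast hm
  have hpos : (0 : ℝ) ≤ 16 * m * 2 ^ c * 2 ^ ((2.8228 : ℝ) * m) := by positivity
  refine le_of_pow_le_pow_left₀ (n := 12) (by norm_num) hpos (hN.trans ?_)
  have h1 : (354 : ℝ) ^ (4 * m) ≤ 2 ^ ((33.872 : ℝ) * m) := by
    calc (354 : ℝ) ^ (4 * m) ≤ ((2 : ℝ) ^ (8.468 : ℝ)) ^ (4 * m) :=
          pow_le_pow_left₀ (by norm_num) log_bound _
      _ = 2 ^ ((33.872 : ℝ) * m) := by
          rw [← Real.rpow_natCast, ← Real.rpow_mul (by norm_num)]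
          congr 1
          push_cast
          ring
  have h2 : (16 * (m : ℝ) * 2 ^ ((0.0001 : ℝ) * m)) ^ 9 = (16 * m) ^ 9 * 2 ^ ((0.0009 : ℝ) * m) := by
    rw [mul_pow, ← Real.rpow_natCast ((2 : ℝ) ^ ((0.0001 : ℝ) * m)), ← Real.rpow_mul (by norm_num)]
    congr 2
    push_cast
    ring
  have h3 : (16 * (m : ℝ) * 2 ^ c * 2 ^ ((2.8228 : ℝ) * m)) ^ 12 =
      (16 * m) ^ 12 * 2 ^ (12 * c) * 2 ^ ((33.8736 : ℝ) * m) := by
    rw [mul_pow, mul_pow, ← Real.rpow_natCast ((2 : ℝ) ^ ((2.8228 : ℝ) * m)),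
      ← Real.rpow_mul (by norm_num), ← pow_mul, mul_comm c 12]
    congr 2
    push_cast
    ring
  rw [h2, h3]
  have h4 : (16 * (m : ℝ)) ^ 9 ≤ (16 * m) ^ 12 :=
    pow_le_pow_right₀ (by linarith) (by norm_num)
  have h5 : (2 : ℝ) ^ (4 * c) ≤ 2 ^ (12 * c) := pow_le_pow_right₀ (by norm_num) (by omega)
  have h6 : (2 : ℝ) ^ ((0.0009 : ℝ) * m) * 2 ^ ((33.872 : ℝ) * m) ≤ 2 ^ ((33.8736 : ℝ) * m) := by
    rw [← Real.rpow_add (by norm_num)]
    exact Real.rpow_le_rpow_of_exponent_le (by norm_num) (by nlinarith)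
  calc (16 * (m : ℝ)) ^ 9 * 2 ^ ((0.0009 : ℝ) * m) * 2 ^ (4 * c) * 354 ^ (4 * m)
      ≤ (16 * (m : ℝ)) ^ 9 * 2 ^ ((0.0009 : ℝ) * m) * 2 ^ (4 * c) * 2 ^ ((33.872 : ℝ) * m) :=
        mul_le_mul_of_nonneg_left h1 (by positivity)
    _ = (16 * (m : ℝ)) ^ 9 * 2 ^ (4 * c) * (2 ^ ((0.0009 : ℝ) * m) * 2 ^ ((33.872 : ℝ) * m)) := by ring
    _ ≤ (16 * (m : ℝ)) ^ 9 * 2 ^ (4 * c) * 2 ^ ((33.8736 : ℝ) * m) :=
        mul_le_mul_of_nonneg_left h6 (by positivity)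
    _ ≤ (16 * m) ^ 12 * 2 ^ (12 * c) * 2 ^ ((33.8736 : ℝ) * m) :=
        mul_le_mul_of_nonneg_right (mul_le_mul h4 h5 (by positivity) (by positivity)) (by positivity)

/-- polynomial against exponential -/
theorem poly_bound : ∃ C : ℝ, 0 ≤ C ∧ ∀ m : ℕ, ((m : ℝ) + 1) ^ 11 ≤ C * 2 ^ ((0.0002 : ℝ) * m) := by
  have h1 : Filter.Tendsto (fun n : ℕ => (n : ℝ) ^ 11 * ((2 : ℝ) ^ (-(0.0002 : ℝ))) ^ n)
      Filter.atTop (nhds 0) := by
    refine tendsto_pow_const_mul_const_pow_of_abs_lt_one 11 ?_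
    rw [abs_of_pos (Real.rpow_pos_of_pos (by norm_num) _)]
    exact Real.rpow_lt_one_of_one_lt_of_neg (by norm_num) (by norm_num)
  obtain ⟨B, hB⟩ := h1.bddAbove_range
  refine ⟨|B| * 2 ^ (0.0002 : ℝ), by positivity, fun m => ?_⟩
  have h2 := hB ⟨m + 1, rfl⟩
  simp only at h2
  rw [← Real.rpow_natCast ((2 : ℝ) ^ (-(0.0002 : ℝ))), ← Real.rpow_mul (by norm_num)] at h2
  push_cast at h2
  have h3 : (0 : ℝ) < 2 ^ ((0.0002 : ℝ) * (m + 1)) := Real.rpow_pos_of_pos (by norm_num) _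
  have h4 : (2 : ℝ) ^ (-(0.0002 : ℝ) * ((m : ℝ) + 1)) * 2 ^ ((0.0002 : ℝ) * (m + 1)) = 1 := by
    rw [← Real.rpow_add (by norm_num)]
    have : -(0.0002 : ℝ) * ((m : ℝ) + 1) + (0.0002 : ℝ) * (m + 1) = 0 := by ring
    rw [this, Real.rpow_zero]
  calc ((m : ℝ) + 1) ^ 11 = (((m : ℝ) + 1) ^ 11 * 2 ^ (-(0.0002 : ℝ) * ((m : ℝ) + 1))) *
        2 ^ ((0.0002 : ℝ) * (m + 1)) := by rw [mul_assoc, h4, mul_one]
    _ ≤ |B| * 2 ^ ((0.0002 : ℝ) * (m + 1)) :=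
        mul_le_mul_of_nonneg_right (h2.trans (le_abs_self B)) h3.le
    _ = |B| * 2 ^ (0.0002 : ℝ) * 2 ^ ((0.0002 : ℝ) * m) := by
        rw [mul_assoc, ← Real.rpow_add (by norm_num)]
        congr 2
        ring

theorem S_finite (m c : ℕ) : (S m c).Finite := by
  refine (Set.finite_Icc (-(2 ^ (3 * m + c) : ℤ)) (2 ^ (3 * m + c))).subset ?_
  intro x hx
  exact abs_le.1 hx.1

theorem main (hC : ClassStatement) (hR : RiseStatement) (hH : HeightStatement)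
    (hD : DecompStatement) (hW : WordsStatement) : MainStatement := by
  classical
  intro c
  obtain ⟨m1, hm1⟩ := hC (2 * c + 1) 0.0001 (by norm_num)
  obtain ⟨m2, hm2⟩ := hH c
  obtain ⟨C2, hC20, hC2⟩ := poly_bound
  obtain ⟨-, -, -, hW4⟩ := hW
  set m0 := max (max m1 m2) 1 with hm0
  -- large m
  have hlarge : ∀ m ≥ m0, ((S m c).ncard : ℝ) ≤
      ((2 * (3 + 2 ^ c) + 1) * 16 * 2 ^ (2 * c + 1) * C2) * (2 : ℝ) ^ (0.941 * (3 * (m : ℝ))) := by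
    intro m hm
    have hmm1 : m1 ≤ m := ((le_max_left _ _).trans (le_max_left _ _)).trans hm
    have hmm2 : m2 ≤ m := ((le_max_right _ _).trans (le_max_left _ _)).trans hm
    have hmm3 : 1 ≤ m := (le_max_right _ _).trans hm
    choose nn hnn1 hnn2 hnn3 using fun w : Fin m → Bool => hR m w
    have hκ : ∀ x : ℤ, ∃ κ : ℤ, x ∈ S m c → |κ| ≤ 3 + 2 ^ c ∧
      x = sol (ones (bw m x 0)) (3 * m) (rr (bw m x 0)) +
          2 ^ m * sol (ones (bw m x 0) + ones (bw m x 1)) (2 * m) (rr (bw m x 1))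
        + 2 ^ (2 * m) * sol (ones (bw m x 0) + ones (bw m x 1) + ones (bw m x 2)) m (rr (bw m x 2))
        - κ * 2 ^ (3 * m) ∧
      (2 : ℤ) ^ m ∣ 3 ^ (ones (bw m x 3) + (ones (bw m x 0) + ones (bw m x 1) + ones (bw m x 2) -
            ones (bw m x 0))) * zeta (ones (bw m x 0)) (3 * m) (rr (bw m x 0))
        + 3 ^ (ones (bw m x 3) + (ones (bw m x 0) + ones (bw m x 1) + ones (bw m x 2) -
            (ones (bw m x 0) + ones (bw m x 1)))) *
              zeta (ones (bw m x 0) + ones (bw m x 1)) (2 * m) (rr (bw m x 1))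
        + 3 ^ ones (bw m x 3) *
            zeta (ones (bw m x 0) + ones (bw m x 1) + ones (bw m x 2)) m (rr (bw m x 2)) +
          rr (bw m x 3) - κ * 3 ^ (ones (bw m x 3) +
            (ones (bw m x 0) + ones (bw m x 1) + ones (bw m x 2))) := by
      intro x
      by_cases hx : x ∈ S m c
      · obtain ⟨κ, h1, h2, h3⟩ := hD m c x _ _ _ _ hx.1 rfl rfl rfl rfl
        exact ⟨κ, fun _ => ⟨h1, h2, h3⟩⟩
      · exact ⟨0, fun h => absurd h hx⟩
    choose κ hκ using hκ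
    -- code
    let idx : ℤ → Idx m := fun x =>
      (fun i => ⟨nn (bw m x i), Nat.lt_succ_of_le (hnn1 _)⟩,
       fun i => ⟨pre (bw m x i) (nn (bw m x i)),
          Nat.lt_succ_of_le ((pre_le _ _).trans (hnn1 _))⟩,
       fun i => ⟨suf (bw m x i) (nn (bw m x i)),
          Nat.lt_succ_of_le ((suf_le _ _).trans (Nat.sub_le _ _))⟩,
       ⟨ones (bw m x 3), Nat.lt_succ_of_le (by
          rw [← hW4 m 0]
          have h1 := pre_le (bw m x 3) 0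
          have h2 := suf_le (bw m x 3) 0
          omega)⟩)
    let gof : ℤ → Idx m → ℤ := fun k p => k * 3 ^ ((p.2.2.2 : ℕ) + ((p.2.1 0 : ℕ) + p.2.2.1 0 +
      (p.2.1 1 + p.2.2.1 1) + (p.2.1 2 + p.2.2.1 2)))
    let cls : ℤ → Idx m → Finset (Q4 m) := fun k p => univ.filter (fun q =>
      Valid m (2 * c + 1) p ∧
      InClass m (fun i => p.1 i) (fun i => p.2.1 i) (fun i => p.2.2.1 i) p.2.2.2
        ((p.2.1 0 : ℕ) + p.2.2.1 0) ((p.2.1 0 : ℕ) + p.2.2.1 0 + (p.2.1 1 + p.2.2.1 1))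
        ((p.2.1 0 : ℕ) + p.2.2.1 0 + (p.2.1 1 + p.2.2.1 1) + (p.2.1 2 + p.2.2.1 2)) (gof k p) q)
    let I : Finset (ℤ × Idx m) := (Icc (-(3 + 2 ^ c : ℤ)) (3 + 2 ^ c)) ×ˢ univ
    let TT : Finset (Σ _ : ℤ × Idx m, Q4 m) := I.sigma (fun p => cls p.1 p.2)
    let F : ℤ → (Σ _ : ℤ × Idx m, Q4 m) := fun x =>
      ⟨(κ x, idx x), (bw m x 0, bw m x 1, bw m x 2, bw m x 3)⟩
    have hcard : (S m c).ncard ≤ TT.card := by
      rw [← Set.ncard_coe_finset]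
      refine Set.ncard_le_ncard_of_injOn F ?_ ?_ (Finset.finite_toSet _)
      · intro x hx
        obtain ⟨hk1, hk2, hk3⟩ := hκ x hx
        have e0 : pre (bw m x 0) (nn (bw m x 0)) + suf (bw m x 0) (nn (bw m x 0)) = ones (bw m x 0) :=
          hW4 _ _ _
        have e1 : pre (bw m x 1) (nn (bw m x 1)) + suf (bw m x 1) (nn (bw m x 1)) = ones (bw m x 1) :=
          hW4 _ _ _
        have e2 : pre (bw m x 2) (nn (bw m x 2)) + suf (bw m x 2) (nn (bw m x 2)) = ones (bw m x 2) :=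
          hW4 _ _ _
        have g0 := hm2 m hmm2 x hx 0 (by norm_num)
        have g1 := hm2 m hmm2 x hx 1 (by norm_num)
        have g2 := hm2 m hmm2 x hx 2 (by norm_num)
        have g3 := hm2 m hmm2 x hx 3 (by norm_num)
        simp only [sum_range_succ, sum_range_zero, zero_add, one_mul] at g0 g1 g2 g3
        norm_num at g1 g2 g3
        simp only [TT, I, F, coe_sigma, Set.mem_sigma_iff, mem_coe, mem_product, mem_Icc, mem_univ,
          and_true, cls, mem_filter, true_and]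
        refine ⟨abs_le.1 hk1, ⟨?_, ?_, ?_, ?_, ?_⟩, ?_⟩
        · intro i
          exact ⟨hnn1 _, pre_le _ _, suf_le _ _, hnn2 _⟩
        · simp only [idx, Fin.val_zero]
          rw [e0]
          exact g0
        · simp only [idx, Fin.val_zero, Fin.val_one]
          rw [e0, e1]
          exact g1
        · simp only [idx, Fin.val_zero, Fin.val_one, Fin.val_two]
          rw [e0, e1, e2]
          exact g2
        · simp only [idx, Fin.val_zero, Fin.val_one, Fin.val_two]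
          rw [e0, e1, e2]
          exact g3
        · refine ⟨⟨rfl, rfl, ?_⟩, ⟨rfl, rfl, ?_⟩, ⟨rfl, rfl, ?_⟩, rfl, ?_⟩
          · exact hnn3 _
          · exact hnn3 _
          · exact hnn3 _
          · simp only [gof, idx, Fin.val_zero, Fin.val_one, Fin.val_two]
            rw [e0, e1, e2]
            exact hk3
      · intro x hx y hy hxy
        obtain ⟨-, hx2, -⟩ := hκ x hx
        obtain ⟨-, hy2, -⟩ := hκ y hy
        have h1 : (F x).1.1 = (F y).1.1 := by rw [hxy]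
        have h2 : (F x).2 = (F y).2 := by rw [hxy]
        simp only [F] at h1 h2
        have h20 := congrArg Prod.fst h2
        have h21 := congrArg (fun q => q.2.1) h2
        have h22 := congrArg (fun q => q.2.2.1) h2
        simp only at h20 h21 h22
        rw [hx2, hy2, h1, h20, h21, h22]
    have hcls : ∀ k p, ((cls k p).card : ℝ) ≤ 16 * m * 2 ^ (2 * c + 1) * 2 ^ ((2.8228 : ℝ) * m) := by
      intro k p
      by_cases hv : Valid m (2 * c + 1) p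
      · refine class_num hmm3 (Nat.cast_nonneg _) ?_
        have hcl := hm1 m hmm1 (fun i => p.1 i) (fun i => p.2.1 i) (fun i => p.2.2.1 i) p.2.2.2
          ((p.2.1 0 : ℕ) + p.2.2.1 0) ((p.2.1 0 : ℕ) + p.2.2.1 0 + (p.2.1 1 + p.2.2.1 1))
          ((p.2.1 0 : ℕ) + p.2.2.1 0 + (p.2.1 1 + p.2.2.1 1) + (p.2.1 2 + p.2.2.1 2))
          hv.1 (Nat.le_of_lt_succ p.2.2.2.2) rfl rfl rfl hv.2.1 hv.2.2.1 hv.2.2.2.1 hv.2.2.2.2 (gof k p)
        refine le_trans (le_of_eq ?_) hcl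
        congr 2
        refine congrArg card ?_
        ext q
        simp only [cls, mem_filter, mem_univ, true_and, InClass]
        exact ⟨fun h => h.2, fun h => ⟨hv, h⟩⟩
      · have : cls k p = ∅ := by
          ext q
          simp only [cls, mem_filter, mem_univ, true_and, notMem_empty, iff_false, not_and]
          exact fun h => absurd h hv
        rw [this, card_empty]
        push_cast
        positivity
    have hTT : (TT.card : ℝ) ≤ I.card * (16 * m * 2 ^ (2 * c + 1) * 2 ^ ((2.8228 : ℝ) * m)) := by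
      rw [card_sigma]
      push_cast
      refine (sum_le_sum (fun p _ => hcls p.1 p.2)).trans (le_of_eq ?_)
      rw [sum_const, nsmul_eq_mul]
    have hI : (I.card : ℝ) = (2 * (3 + 2 ^ c) + 1) * ((m : ℝ) + 1) ^ 10 := by
      have h1 : I.card = (2 * (3 + 2 ^ c) + 1) * (m + 1) ^ 10 := by
        simp only [I, card_product, card_univ, Fintype.card_prod, Fintype.card_fun, Fintype.card_fin,
          Int.card_Icc]
        have h2 : (3 + 2 ^ c + 1 - -(3 + 2 ^ c : ℤ)).toNat = 2 * (3 + 2 ^ c) + 1 := by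
          have : (3 + 2 ^ c + 1 - -(3 + 2 ^ c : ℤ)) = ((2 * (3 + 2 ^ c) + 1 : ℕ) : ℤ) := by
            push_cast
            ring
          rw [this, Int.toNat_natCast]
        rw [h2]
        ring
      rw [h1]
      push_cast
      ring
    have hmR : (1 : ℝ) ≤ m := by exact_mod_cast hmm3
    calc ((S m c).ncard : ℝ) ≤ TT.card := by exact_mod_cast hcard
      _ ≤ I.card * (16 * m * 2 ^ (2 * c + 1) * 2 ^ ((2.8228 : ℝ) * m)) := hTT
      _ = ((2 * (3 + 2 ^ c) + 1) * 16 * 2 ^ (2 * c + 1)) * (((m : ℝ) + 1) ^ 10 * m) *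
            2 ^ ((2.8228 : ℝ) * m) := by rw [hI]; ring
      _ ≤ ((2 * (3 + 2 ^ c) + 1) * 16 * 2 ^ (2 * c + 1)) * (((m : ℝ) + 1) ^ 11) *
            2 ^ ((2.8228 : ℝ) * m) := by
          refine mul_le_mul_of_nonneg_right (mul_le_mul_of_nonneg_left ?_ (by positivity)) (by positivity)
          rw [pow_succ ((m : ℝ) + 1) 10]
          exact mul_le_mul_of_nonneg_left (by linarith) (by positivity)
      _ ≤ ((2 * (3 + 2 ^ c) + 1) * 16 * 2 ^ (2 * c + 1)) * (C2 * 2 ^ ((0.0002 : ℝ) * m)) *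
            2 ^ ((2.8228 : ℝ) * m) :=
          mul_le_mul_of_nonneg_right (mul_le_mul_of_nonneg_left (hC2 m) (by positivity)) (by positivity)
      _ = ((2 * (3 + 2 ^ c) + 1) * 16 * 2 ^ (2 * c + 1) * C2) *
            (2 ^ ((0.0002 : ℝ) * m) * 2 ^ ((2.8228 : ℝ) * m)) := by ring
      _ = ((2 * (3 + 2 ^ c) + 1) * 16 * 2 ^ (2 * c + 1) * C2) * (2 : ℝ) ^ (0.941 * (3 * (m : ℝ))) := by
          rw [← Real.rpow_add (by norm_num)]
          congr 2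
          ring
  -- all m
  refine ⟨(2 * (3 + 2 ^ c) + 1) * 16 * 2 ^ (2 * c + 1) * C2 +
    ∑ l ∈ range m0, ((S l c).ncard : ℝ), fun m => ?_⟩
  have hge1 : (1 : ℝ) ≤ (2 : ℝ) ^ (0.941 * (3 * (m : ℝ))) :=
    Real.one_le_rpow (by norm_num) (by positivity)
  have hs0 : (0 : ℝ) ≤ ∑ l ∈ range m0, ((S l c).ncard : ℝ) := sum_nonneg fun l _ => Nat.cast_nonneg _
  have hc0 : (0 : ℝ) ≤ (2 * (3 + 2 ^ c) + 1) * 16 * 2 ^ (2 * c + 1) * C2 := by positivity
  by_cases hm : m0 ≤ m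
  · refine (hlarge m hm).trans (mul_le_mul_of_nonneg_right ?_ (by positivity))
    linarith
  · have h1 : ((S m c).ncard : ℝ) ≤ ∑ l ∈ range m0, ((S l c).ncard : ℝ) :=
      single_le_sum (f := fun l => ((S l c).ncard : ℝ)) (fun l _ => Nat.cast_nonneg _)
        (mem_range.2 (by omega))
    calc ((S m c).ncard : ℝ) ≤ ∑ l ∈ range m0, ((S l c).ncard : ℝ) := h1
      _ ≤ (∑ l ∈ range m0, ((S l c).ncard : ℝ)) * (2 : ℝ) ^ (0.941 * (3 * (m : ℝ))) :=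
          le_mul_of_one_le_right hs0 hge1
      _ ≤ _ := mul_le_mul_of_nonneg_right (by linarith) (by positivity)

end Pool.Agent.Lib.MP_0a5adf_nt.EXP.H59
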